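import Pool.Agent.H11.NS.Targets

/-!
MP_9b2842_al, module CF: cycle factors of a permutation with cube one.
-/

set_option autoImplicit false

open Equiv (Perm)
open Equiv.Perm

namespace Pool.Agent.H48.CF

open Pool.Agent.H11.NS

lemma prod_pow_three {G : Type*} [Group G] (l : List G) (h : l.Pairwise Commute)
    (h3 : ∀ c ∈ l, c ^ 3 = 1) : l.prod ^ 3 = 1 := by
  induction l with
  | nil => simp
  | cons c l ih =>
    rw [List.pairwise_cons] at h
    rw [List.prod_cons, Commute.mul_pow, h3 c (by simp),
      ih h.2 (fun d hd => h3 d (List.mem_cons_of_mem _ hd)), one_mul]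
    exact Commute.list_prod_right _ _ h.1

theorem pf_cf : T_CF := by
  intro Ω _ _ a ha
  have key : ∀ c ∈ a.cycleFactorsFinset, c.support.card = 3 := by
    intro c hc
    have hmem : c.support.card ∈ a.cycleType := by
      rw [cycleType_def]
      exact Multiset.mem_map.2 ⟨c, hc, rfl⟩
    have h1 := (dvd_of_mem_cycleType hmem).trans (orderOf_dvd_of_pow_eq_one ha)
    have h2 := two_le_of_mem_cycleType hmem
    rcases (Nat.dvd_prime Nat.prime_three).1 h1 with h | h
    · omega
    · exact h
  refine ⟨fun c hc => card_support_eq_three_iff.1 (key c hc), ?_, ?_⟩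
  · rw [← sum_cycleType, cycleType_def]
    have h1 : Multiset.map (Finset.card ∘ support) a.cycleFactorsFinset.1 =
        Multiset.map (fun _ => 3) a.cycleFactorsFinset.1 :=
      Multiset.map_congr rfl fun c hc => key c hc
    rw [h1, Multiset.map_const', Multiset.sum_replicate, smul_eq_mul, mul_comm]
    rfl
  · intro T hT
    set R := (a.cycleFactorsFinset \ T).toList with hR
    have hmemR : ∀ c ∈ R, c ∈ a.cycleFactorsFinset ∧ c ∉ T := by
      intro c hc
      rw [hR, Finset.mem_toList, Finset.mem_sdiff] at hc
      exact hc
    have hpair := cycleFactorsFinset_pairwise_disjoint (f := a)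
    have hcube : ∀ c ∈ a.cycleFactorsFinset, c ^ 3 = 1 := by
      intro c hc
      have h1 := (card_support_eq_three_iff.1 (key c hc)).orderOf
      rw [← h1]
      exact pow_orderOf_eq_one c
    have hRnd : R.Nodup := Finset.nodup_toList _
    have hRpair : R.Pairwise Equiv.Perm.Disjoint := by
      refine List.Pairwise.imp_of_mem ?_ hRnd
      intro c d hc hd hne
      exact hpair (hmemR c hc).1 (hmemR d hd).1 hne
    refine ⟨R.prod, ?_, ?_, ?_, ?_⟩
    · exact prod_pow_three R (hRpair.imp fun h => h.commute) fun c hc => hcube c (hmemR c hc).1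
    · intro c hc
      refine (disjoint_prod_right R fun g hg => ?_).symm
      refine hpair (hT hc) (hmemR g hg).1 ?_
      rintro rfl
      exact (hmemR c hg).2 hc
    · intro x hx
      refine disjoint_prod_right R fun g hg => ?_
      exact hx.mono le_rfl (mem_cycleFactorsFinset_support_le (hmemR g hg).1)
    · intro l hl hlT
      have hnd : (l ++ R).Nodup := by
        rw [List.nodup_append]
        refine ⟨hl, hRnd, ?_⟩
        intro c hc d hd hcd
        subst hcd
        have : c ∈ T := by rw [← hlT]; exact List.mem_toFinset.2 hc
        exact (hmemR c hd).2 this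
      have hset : a.cycleFactorsFinset = (l ++ R).toFinset := by
        rw [List.toFinset_append, hlT, hR, Finset.toList_toFinset]
        exact (Finset.union_sdiff_of_subset hT).symm
      have h := ((cycleFactorsFinset_eq_list_toFinset hnd).1 hset).2.2
      rw [List.prod_append] at h
      exact h.symm

end Pool.Agent.H48.CF
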