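import Pool.Agent.H11.NS.Targets

/-!
MP_9b2842_al, module FP: fixed points of a coprime action on a coset.
-/

set_option autoImplicit false

namespace Pool.Agent.H48.NSFP

open Pool.Agent.H11.NS

variable {X : Type} [Group X] (K : Subgroup X) (x : X)

/-- the elements which fix the coset `x K` under conjugation -/
def Nx [hK : K.Normal] : Subgroup X where
  carrier := {h | h * x * h⁻¹ * x⁻¹ ∈ K}
  mul_mem' := by
    intro a b ha hb
    have h1 : a * (b * x * b⁻¹ * x⁻¹) * a⁻¹ ∈ K := hK.conj_mem _ hb a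
    have e : a * b * x * (a * b)⁻¹ * x⁻¹ =
        (a * (b * x * b⁻¹ * x⁻¹) * a⁻¹) * (a * x * a⁻¹ * x⁻¹) := by group
    change a * b * x * (a * b)⁻¹ * x⁻¹ ∈ K
    rw [e]
    exact K.mul_mem h1 ha
  one_mem' := by
    change 1 * x * 1⁻¹ * x⁻¹ ∈ K
    have : 1 * x * 1⁻¹ * x⁻¹ = 1 := by group
    rw [this]
    exact K.one_mem
  inv_mem' := by
    intro a ha
    have h1 : a⁻¹ * (a * x * a⁻¹ * x⁻¹)⁻¹ * a⁻¹⁻¹ ∈ K := hK.conj_mem _ (K.inv_mem ha) a⁻¹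
    have e : a⁻¹ * x * a⁻¹⁻¹ * x⁻¹ = a⁻¹ * (a * x * a⁻¹ * x⁻¹)⁻¹ * a⁻¹⁻¹ := by group
    change a⁻¹ * x * a⁻¹⁻¹ * x⁻¹ ∈ K
    rw [e]
    exact h1

/-- the coset `x K` -/
def Co : Type := {y : X // x⁻¹ * y ∈ K}

lemma conj_co [hK : K.Normal] {h y : X} (hh : h ∈ Nx K x) (hy : x⁻¹ * y ∈ K) :
    x⁻¹ * (h * y * h⁻¹) ∈ K := by
  have h1 : x⁻¹ * (h * x * h⁻¹ * x⁻¹) * x⁻¹⁻¹ ∈ K := hK.conj_mem _ hh x⁻¹
  have h2 : h * (x⁻¹ * y) * h⁻¹ ∈ K := hK.conj_mem _ hy h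
  have e : x⁻¹ * (h * y * h⁻¹) =
      (x⁻¹ * (h * x * h⁻¹ * x⁻¹) * x⁻¹⁻¹) * (h * (x⁻¹ * y) * h⁻¹) := by group
  rw [e]
  exact K.mul_mem h1 h2

/-- the action of a subgroup of `Nx K x` on the coset -/
@[reducible] def act [K.Normal] (H : Subgroup X) (hH : H ≤ Nx K x) : MulAction H (Co K x) where
  smul h y := ⟨h.1 * y.1 * h.1⁻¹, conj_co K x (hH h.2) y.2⟩
  one_smul y := Subtype.ext (by
    change 1 * y.1 * 1⁻¹ = y.1
    group)
  mul_smul a b y := Subtype.ext (by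
    change (a.1 * b.1) * y.1 * (a.1 * b.1)⁻¹ = a.1 * (b.1 * y.1 * b.1⁻¹) * a.1⁻¹
    group)

theorem pf_fp : T_FP := by
  intro X _ _ K hK q hq hqK g hg x hx
  have hfact : Fact q.Prime := ⟨hq⟩
  set H := Subgroup.zpowers g with hH
  have hHN : H ≤ Nx K x := by
    rw [hH, Subgroup.zpowers_le]
    exact hx
  have hp : IsPGroup q H := by
    obtain ⟨k, hk⟩ := hg
    intro h
    obtain ⟨h, hh⟩ := h
    obtain ⟨l, rfl⟩ := Subgroup.mem_zpowers_iff.1 hh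
    refine ⟨k, Subtype.ext ?_⟩
    change (g ^ l) ^ (q ^ k) = 1
    rw [← zpow_natCast, ← zpow_mul, mul_comm, zpow_mul, zpow_natCast, hk, one_zpow]
  let inst := act K x H hHN
  have hcard : Nat.card (Co K x) = Nat.card K := by
    refine Nat.card_congr ⟨fun y => ⟨x⁻¹ * y.1, y.2⟩, fun k => ⟨x * k.1, ?_⟩, ?_, ?_⟩
    · rw [inv_mul_cancel_left]; exact k.2
    · intro y
      exact Subtype.ext (mul_inv_cancel_left _ _)
    · intro k
      exact Subtype.ext (inv_mul_cancel_left _ _)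
  have hfin : Finite (Co K x) := Subtype.finite
  obtain ⟨y, hy⟩ := hp.nonempty_fixed_point_of_prime_not_dvd_card (Co K x)
    (by rw [hcard]; exact hqK)
  have h1 : (⟨g, Subgroup.mem_zpowers g⟩ : H) • y = y := hy _
  have h2 : g * y.1 * g⁻¹ = y.1 := congrArg Subtype.val h1
  refine ⟨x⁻¹ * y.1, y.2, ?_⟩
  rw [mul_inv_cancel_left]
  calc g * y.1 = g * y.1 * g⁻¹ * g := by group
    _ = y.1 * g := by rw [h2]

end Pool.Agent.H48.NSFP
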