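import Pool.Agent.H11.NS.Targets

/-!
MP_9b2842_al, module WA: a soluble subgroup of finite index of an infinite centralizer.
-/

set_option autoImplicit false

namespace Pool.Agent.H48.WA

open Pool.Agent.H11.NS

lemma aux (G : Type) [Group G] (a : G) (ha : a ^ 3 = 1) (C : Subgroup G)
    (hC : ∀ x, x ∈ C ↔ a * x = x * a) (H : Subgroup C) (hH : H.index ≠ 0)
    (hsol : Group.IsSolvable H) (hinf : Infinite C) :
    ∃ (S : Subgroup G) (m : ℕ) (h : G) (e : ℕ), (∀ x ∈ S, a * x = x * a) ∧ 0 < m ∧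
      (∀ ℓ : ℕ, ℓ.Prime → ¬ ℓ ∣ m → ∀ x : G, a * x = x * a → (∃ k : ℕ, x ^ (ℓ ^ k) = 1) →
        x ∈ S) ∧
      h ∈ (derivedSeries S e).map S.subtype ∧
      (derivedSeries S (e + 1)).map S.subtype ≤ Subgroup.zpowers a ∧
      h ∉ Subgroup.zpowers a := by
  have hfi : H.FiniteIndex := ⟨hH⟩
  set S₀ := H.normalCore with hS₀
  have hS₀n : S₀.Normal := Subgroup.normalCore_normal H
  have hS₀f : S₀.FiniteIndex := Subgroup.finiteIndex_normalCore H
  set S : Subgroup G := S₀.map C.subtype with hS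
  have hcomm : ∀ x ∈ S, a * x = x * a := by
    rintro _ ⟨x, hx, rfl⟩
    exact (hC _).1 x.2
  have hsolS : Group.IsSolvable S := by
    have h1 : Group.IsSolvable S₀ :=
      Group.isSolvable_of_isSolvable_injective
        (Subgroup.inclusion_injective (Subgroup.normalCore_le H))
    exact Group.isSolvable_of_surjective (C.subtype.subgroupMap_surjective S₀)
  have hm : S₀.index ≠ 0 := hS₀f.index_ne_zero
  have hnot : ¬ S ≤ Subgroup.zpowers a := by
    intro hle
    have hfin : (Subgroup.zpowers a : Set G).Finite :=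
      finite_zpowers.2 (isOfFinOrder_iff_pow_eq_one.2 ⟨3, by norm_num, ha⟩)
    have hSfin : (S : Set G).Finite := hfin.subset hle
    have hS₀fin : Finite S₀ := by
      have h1 : Finite S := hSfin.to_subtype
      exact Finite.of_injective (S₀.equivMapOfInjective C.subtype C.subtype_injective)
        (MulEquiv.injective _)
    have h2 := S₀.index_mul_card
    have h3 : Nat.card C = 0 := Nat.card_eq_zero_of_infinite
    rw [h3] at h2
    rcases Nat.mul_eq_zero.1 h2 with h | h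
    · exact hm h
    · exact Nat.card_pos.ne' h
  obtain ⟨n, hn⟩ := hsolS.solvable
  have hex : ∃ j, (derivedSeries S j).map S.subtype ≤ Subgroup.zpowers a := by
    refine ⟨n, ?_⟩
    rw [hn, Subgroup.map_bot]
    exact bot_le
  classical
  have h0 : Nat.find hex ≠ 0 := by
    intro h
    have h1 := Nat.find_spec hex
    rw [h, derivedSeries_zero, ← MonoidHom.range_eq_map, Subgroup.range_subtype] at h1
    exact hnot h1
  obtain ⟨e, he⟩ := Nat.exists_eq_succ_of_ne_zero h0
  have h1 : ¬ (derivedSeries S e).map S.subtype ≤ Subgroup.zpowers a :=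
    Nat.find_min hex (by omega)
  obtain ⟨h, hh, hh'⟩ := Set.not_subset.1 h1
  refine ⟨S, S₀.index, h, e, hcomm, Nat.pos_of_ne_zero hm, ?_, hh, ?_, hh'⟩
  · intro ℓ hℓ hdvd x hx hk
    obtain ⟨k, hk⟩ := hk
    have hxC : x ∈ C := (hC x).2 hx
    have h2 : (QuotientGroup.mk (⟨x, hxC⟩ : C) : C ⧸ S₀) ^ (ℓ ^ k) = 1 := by
      rw [← QuotientGroup.mk_pow]
      have : (⟨x, hxC⟩ : C) ^ (ℓ ^ k) = 1 := Subtype.ext hk
      rw [this]
      rfl
    have h3 : (QuotientGroup.mk (⟨x, hxC⟩ : C) : C ⧸ S₀) ^ S₀.index = 1 := by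
      rw [Subgroup.index]
      exact pow_card_eq_one'
    have hcop : Nat.Coprime (ℓ ^ k) S₀.index :=
      Nat.Coprime.pow_left k ((Nat.Prime.coprime_iff_not_dvd hℓ).2 hdvd)
    have h4 : orderOf (QuotientGroup.mk (⟨x, hxC⟩ : C) : C ⧸ S₀) = 1 :=
      Nat.eq_one_of_dvd_coprimes hcop (orderOf_dvd_of_pow_eq_one h2) (orderOf_dvd_of_pow_eq_one h3)
    rw [orderOf_eq_one_iff, QuotientGroup.eq_one_iff] at h4
    exact ⟨⟨x, hxC⟩, h4, rfl⟩
  · have h2 := Nat.find_spec hex
    rwa [he] at h2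

theorem pf_wa : T_WA := by
  intro G _ a ha H hH hsol hinf
  refine aux G a ha _ (fun x => ?_) H hH hsol hinf
  rw [Subgroup.mem_centralizer_singleton_iff]
  exact eq_comm

end Pool.Agent.H48.WA
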